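import Pool.Agent.ULB.All
import Pool.Agent.ULB.HWc
import Pool.Agent.UHJ.Main
import Pool.Agent.ULB.URTAlg
import Pool.Agent.ULB.URTCc
import Pool.Agent.ULB.URTEst
import Pool.Agent.ULB.URTHen
import Pool.Agent.ULB.URTLac
import Pool.Agent.ULB.URTRoot
import Pool.Agent.ULB.URTUnit
import Pool.Agent.ULB.URTUz
import Pool.Agent.ULB.URTWw

/-!
# MP_c538e3_nt: both dimensions are at least 1/3

Paper proof: Pool/Agent/ULB/BLUEPRINT.md and BLUEPRINT_ROOT.md, Pool/Agent/UHI and Pool/Agent/UHJ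
(two inverse theorems). The construction is a tree of pairs `(y, P)`: an integer vector
`y = (y₀, y₁, y₂)` with `δ = |y₀ y₂ - y₁²|` and an integer polynomial `P` of degree two, orthogonal
to `y`, with `|P'(y₁/y₀)| = b δ`, `y₀ = G b δ²` and `b = G ^ β` up to a small power of `G`. A pair
has at least `G ^ (1 - 4 β)` children, at distance at least `r / G` from each other, and their
intervals are at least `G ^ (-3)` times as long as the interval (length `r`) of the pair. So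
the limit set has dimension at least `1/3 - 2 β`.
-/

namespace Pool.Agent.Results.MP_c538e3_nt.DimensionAtLeastThird

open Polynomial

/-- The real number `ξ` is algebraic of degree at most two. -/
def AlgDegLeTwo (ξ : ℝ) : Prop :=
  ∃ P : ℤ[X], P ≠ 0 ∧ P.natDegree ≤ 2 ∧ aeval ξ P = 0

/-- The height of an integer polynomial: the maximum of the absolute values of its
coefficients. -/
def height (P : ℤ[X]) : ℕ := P.support.sup fun i => (P.coeff i).natAbs

/-- The real numbers `w` such that, for every sufficiently large real `H`, there is a nonzero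
integer polynomial `P` with `deg P ≤ 2`, `H(P) ≤ H` and `0 < |P(ξ)| ≤ H ^ (-w)`. -/
def admissible (ξ : ℝ) : Set ℝ :=
  {w | ∃ H₀ : ℝ, ∀ H : ℝ, H₀ ≤ H → ∃ P : ℤ[X], P ≠ 0 ∧ P.natDegree ≤ 2 ∧
    (height P : ℝ) ≤ H ∧ 0 < |aeval ξ P| ∧ |aeval ξ P| ≤ H ^ (-w)}

/-- The uniform exponent `ŵ₂(ξ)`. -/
noncomputable def uniformExponent (ξ : ℝ) : EReal := ⨆ w ∈ admissible ξ, (w : EReal)

/-- The real numbers `w` such that, for every sufficiently large real `H`, there is a real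
algebraic number `α` of degree at most two (the root of an irreducible integer polynomial `P` of
degree at most two) with `H(α) = H(P) ≤ H` and `0 < |ξ - α| ≤ H(α)⁻¹ H ^ (-w)`. -/
def admissibleStar (ξ : ℝ) : Set ℝ :=
  {w | ∃ H₀ : ℝ, ∀ H : ℝ, H₀ ≤ H → ∃ (α : ℝ) (P : ℤ[X]), Irreducible P ∧ P.natDegree ≤ 2 ∧
    aeval α P = 0 ∧ (height P : ℝ) ≤ H ∧ 0 < |ξ - α| ∧
    |ξ - α| ≤ (height P : ℝ)⁻¹ * H ^ (-w)}

/-- The uniform exponent `ŵ₂*(ξ)`. -/
noncomputable def uniformExponentStar (ξ : ℝ) : EReal := ⨆ w ∈ admissibleStar ξ, (w : EReal)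

theorem root : ULB.Stmt_ROOT :=
  ULB.URT.t_ROOT ULB.URT.t_HEN ULB.URT.t_UZ (ULB.URT.t_EST ULB.URT.t_ALG ULB.URT.t_UZ)
    (ULB.URT.t_WWR ULB.URT.t_UNIT ULB.URT.t_UZ ULB.URT.t_XP ULB.URT.t_LAC
      (ULB.URT.t_EST ULB.URT.t_ALG ULB.URT.t_UZ)
      (ULB.URT.t_CC ULB.URT.t_ALG ULB.URT.t_UZ (ULB.URT.t_EST ULB.URT.t_ALG ULB.URT.t_UZ)))

/-- The sets of the real numbers `ξ`, not algebraic of degree at most two, with `ŵ₂*(ξ) > 2`,
respectively `ŵ₂(ξ) > 2`, have Hausdorff dimension at least `1/3`. -/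
theorem result :
    1 / 3 ≤ dimH {ξ : ℝ | ¬ AlgDegLeTwo ξ ∧ 2 < uniformExponentStar ξ} ∧
      1 / 3 ≤ dimH {ξ : ℝ | ¬ AlgDegLeTwo ξ ∧ 2 < uniformExponent ξ} :=
  ULB.all_FIN ULB.hw Pool.Agent.UHJ.inv2 root

end Pool.Agent.Results.MP_c538e3_nt.DimensionAtLeastThird
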