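import Pool.Agent.Lib_helper29.UE14

namespace Pool.Agent.Results.MP_c538e3_nt.UniformDimensionHalf

open Polynomial

/-- The real number `ξ` is algebraic of degree at most two. -/
def AlgDegLeTwo (ξ : ℝ) : Prop :=
  ∃ P : ℤ[X], P ≠ 0 ∧ P.natDegree ≤ 2 ∧ aeval ξ P = 0

/-- The height of an integer polynomial: the maximum of the absolute values of its
coefficients. -/
def height (P : ℤ[X]) : ℕ := P.support.sup fun i => (P.coeff i).natAbs

/-- The real numbers `w` such that, for every sufficiently large real `H`, there is a nonzero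
integer polynomial `P` with `deg P ≤ 2`, `H(P) ≤ H` and `0 < |P(ξ)| ≤ H ^ (-w)`. -/
def admissible (ξ : ℝ) : Set ℝ :=
  {w | ∃ H₀ : ℝ, ∀ H : ℝ, H₀ ≤ H → ∃ P : ℤ[X], P ≠ 0 ∧ P.natDegree ≤ 2 ∧
    (height P : ℝ) ≤ H ∧ 0 < |aeval ξ P| ∧ |aeval ξ P| ≤ H ^ (-w)}

/-- The uniform exponent `ŵ₂(ξ)`. -/
noncomputable def uniformExponent (ξ : ℝ) : EReal := ⨆ w ∈ admissible ξ, (w : EReal)

/-- The real numbers `w` such that, for every sufficiently large real `H`, there is a real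
algebraic number `α` of degree at most two (the root of an irreducible integer polynomial `P` of
degree at most two) with `H(α) = H(P) ≤ H` and `0 < |ξ - α| ≤ H(α)⁻¹ H ^ (-w)`. -/
def admissibleStar (ξ : ℝ) : Set ℝ :=
  {w | ∃ H₀ : ℝ, ∀ H : ℝ, H₀ ≤ H → ∃ (α : ℝ) (P : ℤ[X]), Irreducible P ∧ P.natDegree ≤ 2 ∧
    aeval α P = 0 ∧ (height P : ℝ) ≤ H ∧ 0 < |ξ - α| ∧
    |ξ - α| ≤ (height P : ℝ)⁻¹ * H ^ (-w)}

/-- The uniform exponent `ŵ₂*(ξ)`. -/
noncomputable def uniformExponentStar (ξ : ℝ) : EReal := ⨆ w ∈ admissibleStar ξ, (w : EReal)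

theorem coeff_le_height (P : ℤ[X]) (i : ℕ) : |((P.coeff i : ℤ) : ℝ)| ≤ (height P : ℝ) := by
  rw [← Int.cast_abs, ← Nat.cast_natAbs]
  by_cases hi : i ∈ P.support
  · have h := Finset.le_sup (f := fun i => (P.coeff i).natAbs) hi
    exact_mod_cast h
  · rw [notMem_support_iff] at hi
    rw [hi]
    simp

theorem aeval_eq {P : ℤ[X]} (hP : P.natDegree ≤ 2) (x : ℝ) :
    aeval x P = (P.coeff 0 : ℝ) + P.coeff 1 * x + P.coeff 2 * x ^ 2 := by
  rw [aeval_eq_sum_range' (by omega : P.natDegree < 3)]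
  simp [Finset.sum_range_succ]

theorem ne_zero_of_not_alg {ξ : ℝ} (hξ : ¬ AlgDegLeTwo ξ) {P : ℤ[X]} (hP : P ≠ 0)
    (hd : P.natDegree ≤ 2) : 0 < |aeval ξ P| := by
  rw [abs_pos]
  exact fun h => hξ ⟨P, hP, hd, h⟩

/-- Good approximation by algebraic numbers gives good approximation by polynomials. -/
theorem star_lt {ξ w : ℝ} (hξ : ¬ AlgDegLeTwo ξ) (hw : 0 ≤ w)
    (h : (w : EReal) < uniformExponentStar ξ) : (w : EReal) < uniformExponent ξ := by
  unfold uniformExponentStar at h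
  rw [lt_iSup_iff] at h
  obtain ⟨w', h⟩ := h
  rw [lt_iSup_iff] at h
  obtain ⟨⟨H₀, hH₀⟩, hww⟩ := h
  rw [EReal.coe_lt_coe_iff] at hww
  have h1 : Filter.Tendsto (fun H : ℝ => H ^ ((w' - w) / 2)) Filter.atTop Filter.atTop :=
    tendsto_rpow_atTop (by linarith)
  obtain ⟨H₁, hH₁⟩ := Filter.eventually_atTop.mp (h1.eventually_ge_atTop (2 * |ξ| + 2))
  have hmem : (w + w') / 2 ∈ admissible ξ := by
    refine ⟨max (max H₀ H₁) 1, ?_⟩
    intro H hH
    have g1 : H₀ ≤ H := (le_max_left _ _).trans ((le_max_left _ _).trans hH)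
    have g2 : H₁ ≤ H := (le_max_right _ _).trans ((le_max_left _ _).trans hH)
    have g3 : 1 ≤ H := (le_max_right _ _).trans hH
    have hHpos : 0 < H := by linarith
    obtain ⟨α, P, hirr, hd, hroot, hht, -, hdist⟩ := hH₀ H g1
    refine ⟨P, hirr.ne_zero, hd, hht, ne_zero_of_not_alg hξ hirr.ne_zero hd, ?_⟩
    have hHw : 0 < H ^ (-w') := Real.rpow_pos_of_pos hHpos _
    have hHw1 : H ^ (-w') ≤ 1 := Real.rpow_le_one_of_one_le_of_nonpos g3 (by linarith)
    have hh0 : (0 : ℝ) ≤ (height P : ℝ) := Nat.cast_nonneg _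
    have hinv : ((height P : ℝ))⁻¹ ≤ 1 := Nat.cast_inv_le_one _
    have hinv0 : 0 ≤ ((height P : ℝ))⁻¹ := inv_nonneg.mpr hh0
    have hle1 : |ξ - α| ≤ 1 := by
      refine hdist.trans ?_
      calc ((height P : ℝ))⁻¹ * H ^ (-w') ≤ 1 * 1 := by gcongr
        _ = 1 := one_mul 1
    have hsum : |ξ + α| ≤ 2 * |ξ| + 1 := by
      have e : ξ + α = 2 * ξ - (ξ - α) := by ring
      rw [e]
      refine (abs_sub _ _).trans ?_
      rw [abs_mul, abs_two]
      linarith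
    have hslope : |(P.coeff 1 : ℝ) + P.coeff 2 * (ξ + α)| ≤ height P * (2 * |ξ| + 2) := by
      refine (abs_add_le _ _).trans ?_
      rw [abs_mul]
      have k1 := coeff_le_height P 1
      have k2 : |((P.coeff 2 : ℤ) : ℝ)| * |ξ + α| ≤ height P * (2 * |ξ| + 1) := by
        gcongr
        exact coeff_le_height P 2
      linarith
    have heq : aeval ξ P = (ξ - α) * ((P.coeff 1 : ℝ) + P.coeff 2 * (ξ + α)) := by
      have e1 := aeval_eq hd ξ
      have e2 := aeval_eq hd α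
      rw [hroot] at e2
      rw [e1]
      linear_combination -e2
    rw [heq, abs_mul]
    have hK : 0 ≤ 2 * |ξ| + 2 := by have := abs_nonneg ξ; linarith
    calc |ξ - α| * |(P.coeff 1 : ℝ) + P.coeff 2 * (ξ + α)|
        ≤ ((height P : ℝ)⁻¹ * H ^ (-w')) * (height P * (2 * |ξ| + 2)) := by gcongr
      _ = ((height P : ℝ)⁻¹ * height P) * (H ^ (-w') * (2 * |ξ| + 2)) := by ring
      _ ≤ 1 * (H ^ (-w') * (2 * |ξ| + 2)) := by
          gcongr
          exact inv_mul_le_one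
      _ ≤ 1 * (H ^ (-w') * H ^ ((w' - w) / 2)) := by
          gcongr
          exact hH₁ H g2
      _ = H ^ (-((w + w') / 2)) := by
          rw [one_mul, ← Real.rpow_add hHpos]
          congr 1
          ring
  have hsup : (((w + w') / 2 : ℝ) : EReal) ≤ uniformExponent ξ :=
    le_iSup₂ (f := fun (v : ℝ) (_ : v ∈ admissible ξ) => (v : EReal)) ((w + w') / 2) hmem
  refine lt_of_lt_of_le ?_ hsup
  rw [EReal.coe_lt_coe_iff]
  linarith

/-- The set of the first question is covered by countably many of the sets `UE.Gd`. -/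
theorem subset_union {w : ℝ} (hw : 2 ≤ w) :
    {ξ : ℝ | ¬ AlgDegLeTwo ξ ∧ (w : EReal) < uniformExponent ξ} ⊆
      ⋃ i : {q : ℚ // w < (q : ℝ)} × ℕ × ℕ, UE.Gd (i.1.1 : ℝ) (i.2.1 : ℝ) (i.2.2 : ℝ) := by
  rintro ξ ⟨hξ, h⟩
  unfold uniformExponent at h
  rw [lt_iSup_iff] at h
  obtain ⟨w', h⟩ := h
  rw [lt_iSup_iff] at h
  obtain ⟨⟨H₀, hH₀⟩, hww⟩ := h
  rw [EReal.coe_lt_coe_iff] at hww
  obtain ⟨q, hq1, hq2⟩ := exists_rat_btwn hww
  obtain ⟨n, hn⟩ := exists_nat_ge (max H₀ 1)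
  obtain ⟨m, hm⟩ := exists_nat_ge |ξ|
  rw [Set.mem_iUnion]
  refine ⟨(⟨q, hq1⟩, n, m), ?_⟩
  have happ : ∀ H : ℝ, (n : ℝ) ≤ H → ∃ P : UE.Z3, P ≠ ⟨0, 0, 0⟩ ∧ |(P.a : ℝ)| ≤ H ∧
      |(P.b : ℝ)| ≤ H ∧ |(P.c : ℝ)| ≤ H ∧ |UE.ev P ξ| ≤ H ^ (-(q : ℝ)) := by
    intro H hH
    have g1 : H₀ ≤ H := (le_max_left _ _).trans (hn.trans hH)
    have g2 : 1 ≤ H := (le_max_right _ _).trans (hn.trans hH)
    obtain ⟨P, hP, hd, hht, -, hev⟩ := hH₀ H g1
    refine ⟨⟨P.coeff 0, P.coeff 1, P.coeff 2⟩, ?_, (coeff_le_height P 0).trans hht,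
      (coeff_le_height P 1).trans hht, (coeff_le_height P 2).trans hht, ?_⟩
    · intro h0
      apply hP
      rw [UE.Z3.mk.injEq] at h0
      obtain ⟨h1, h2, h3⟩ := h0
      ext i
      rw [coeff_zero]
      rcases Nat.lt_or_ge i 3 with hi | hi
      · interval_cases i
        · exact h1
        · exact h2
        · exact h3
      · exact coeff_eq_zero_of_natDegree_lt (by omega)
    · have e1 : UE.ev ⟨P.coeff 0, P.coeff 1, P.coeff 2⟩ ξ = aeval ξ P := by
        rw [aeval_eq hd]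
        rfl
      rw [e1]
      refine hev.trans ?_
      exact Real.rpow_le_rpow_of_exponent_le g2 (by linarith)
  have hirr : Irrational ξ := by
    rintro ⟨r, hr⟩
    apply hξ
    refine ⟨C (r.den : ℤ) * X - C r.num, ?_, ?_, ?_⟩
    · intro h0
      have h1 : coeff (C (r.den : ℤ) * X - C r.num) 1 = 0 := by rw [h0, coeff_zero]
      rw [coeff_sub, coeff_C_mul, coeff_X_one, coeff_C, if_neg (by norm_num)] at h1
      have h2 : r.den ≠ 0 := r.den_ne_zero
      omega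
    · refine (natDegree_sub_le _ _).trans ?_
      apply max_le
      · exact (natDegree_C_mul_le _ _).trans (by rw [natDegree_X]; norm_num)
      · rw [natDegree_C]; norm_num
    · simp only [map_sub, map_mul, aeval_C, aeval_X, ← hr]
      have := Rat.den_mul_eq_num r
      have h2 : ((r.den : ℚ) * r : ℚ) = (r.num : ℚ) := this
      have h3 : ((r.den : ℝ) * (r : ℝ) : ℝ) = (r.num : ℝ) := by exact_mod_cast h2
      simp [h3]
  exact ⟨hm, happ, UE.dio_two (by linarith : (2 : ℝ) < q) hirr happ⟩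

/-- For every `w ≥ 2` the set of real numbers `ξ`, not algebraic of degree at most two, with
`ŵ₂(ξ) > w` has Hausdorff dimension at most `3 / (2 (w + 1))`, and so has the set of those with
`ŵ₂*(ξ) > w`. For `w = 2` both bounds are equal to `1 / 2`. -/
theorem result (w : ℝ) (hw : 2 ≤ w) :
    dimH {ξ : ℝ | ¬ AlgDegLeTwo ξ ∧ (w : EReal) < uniformExponent ξ}
      ≤ ENNReal.ofReal (3 / (2 * (w + 1))) ∧
    dimH {ξ : ℝ | ¬ AlgDegLeTwo ξ ∧ (w : EReal) < uniformExponentStar ξ}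
      ≤ ENNReal.ofReal (3 / (2 * (w + 1))) := by
  have h1 : dimH {ξ : ℝ | ¬ AlgDegLeTwo ξ ∧ (w : EReal) < uniformExponent ξ}
      ≤ ENNReal.ofReal (3 / (2 * (w + 1))) := by
    refine (dimH_mono (subset_union hw)).trans ?_
    rw [dimH_iUnion]
    apply iSup_le
    rintro ⟨⟨q, hq⟩, n, m⟩
    refine (UE.dimH_Gd (by linarith : (2 : ℝ) < q) (Nat.cast_nonneg _)).trans ?_
    apply ENNReal.ofReal_le_ofReal
    apply div_le_div_of_nonneg_left (by norm_num) (by linarith)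
    linarith
  refine ⟨h1, le_trans (dimH_mono ?_) h1⟩
  rintro ξ ⟨hξ, h⟩
  exact ⟨hξ, star_lt hξ (by linarith) h⟩

end Pool.Agent.Results.MP_c538e3_nt.UniformDimensionHalf
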